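import Pool.Agent.H354.BG.Stm

set_option autoImplicit false

/-! Project BG (helper354), task NS: short relations are excluded by the normal form theorem
(helper800). -/

namespace Pool.Agent.H800.BG.NS

open Pool.Agent.H354.BG
open Pool.Agent.H482R3.EA (W inv ev PP xx evF cond1 cond2 Syl gOf Sys St Near InD Adm Act)
open Pool.Agent.H482R3.EB (tot wp alt rels AR gR TR Tame Symm alt_length)

/-- a product of two powers of different points is not a power of a third point -/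
lemma gen3 (S : Sys) (A : Act S) (l₁ l₂ l₃ : S.Ln) (p₁ p₂ p₃ : S.P) (h1 : S.I p₁ l₁)
    (h2 : S.I p₂ l₂) (h3 : S.I p₃ l₃) (i j d : ℤ) (hi : i ≠ 0) (hj : j ≠ 0) (hd : d ≠ 0)
    (h12 : p₁ ≠ p₂) (h23 : p₂ ≠ p₃)
    (he : A.act A.one l₁ (S.x l₁ p₁ ^ i) =
      A.act (A.act A.one l₃ (S.x l₃ p₃ ^ d)) l₂ (S.x l₂ p₂ ^ j)) : False := by
  have hnone : ∀ p : S.P, ¬ Near S p (A.st A.one) := by
    intro p hp
    rw [A.st_one] at hp
    exact hp
  have hs1 := A.st_pt A.one l₁ p₁ i h1 hi (hnone _)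
  have hs3 := A.st_pt A.one l₃ p₃ d h3 hd (hnone _)
  by_cases hnear : Near S p₂ (A.st (A.act A.one l₃ (S.x l₃ p₃ ^ d)))
  · rw [hs3] at hnear
    obtain ⟨m, hm3, hm2⟩ := hnear
    rw [A.act_pt A.one l₃ m p₃ d h3 hm3, A.act_pt _ l₂ m p₂ j h2 hm2, A.act_mul] at he
    have h8 := A.st_ln A.one m (S.x m p₃ ^ d * S.x m p₂ ^ j)
      (by rw [A.st_one]; exact fun h => h) (fun q _ => hnone q) (by
        intro r a hr hra
        by_cases hr2 : p₂ = r
        · rw [← hr2] at hra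
          have h9 := S.L1 m p₃ p₂ d (j + -a) hm3 hm2 h23.symm (by
            rw [zpow_add, ← mul_assoc, hra, ← zpow_add, add_neg_cancel, zpow_zero])
          exact hd h9.1
        · by_cases hr3 : p₃ = r
          · rw [← hr3] at hra
            have h9 := S.L1 m p₃ p₂ (-a + d) j hm3 hm2 h23.symm (by
              rw [zpow_add, mul_assoc, hra, ← zpow_add, neg_add_cancel, zpow_zero])
            exact hj h9.2
          · have h9 := S.L2 m p₃ p₂ r d j (-a) hm3 hm2 hr h23.symm hr2 hr3 (by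
              rw [hra, ← zpow_add, add_neg_cancel, zpow_zero])
            exact hd h9.1)
    rw [← he, hs1] at h8
    cases h8
  · rw [he, A.st_pt _ l₂ p₂ j h2 hj hnear] at hs1
    injection hs1 with h4
    exact h12 h4.symm

/-- equality of two powers of points -/
lemma gen2 (S : Sys) (A : Act S) (l₁ l₂ : S.Ln) (p₁ p₂ : S.P) (h1 : S.I p₁ l₁)
    (h2 : S.I p₂ l₂) (i j : ℤ) (hi : i ≠ 0) (hj : j ≠ 0)
    (he : A.act A.one l₁ (S.x l₁ p₁ ^ i) = A.act A.one l₂ (S.x l₂ p₂ ^ j)) : p₁ = p₂ := by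
  have hnone : ∀ p : S.P, ¬ Near S p (A.st A.one) := by
    intro p hp
    rw [A.st_one] at hp
    exact hp
  have hs1 := A.st_pt A.one l₁ p₁ i h1 hi (hnone _)
  have hs3 := A.st_pt A.one l₂ p₂ j h2 hj (hnone _)
  rw [he, hs3] at hs1
  injection hs1 with h4
  exact h4.symm

section

variable (D : Dat) (Z : Finset (Fin D.r)) (c : Fin D.r) (hS : SysOK D Z c)
  (A : Act (sysX D Z c hS))

/-- action of the block line of `g` -/
noncomputable def aB (ω : A.Ω) (g : D.A) (y : par D {c}) : A.Ω :=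
  A.act ω (Sum.inl (QuotientGroup.mk g) : Ln D Z c) y

lemma aB_one (ω : A.Ω) (g : D.A) : aB D Z c hS A ω g 1 = ω := A.act_one ω _

lemma aB_mul (ω : A.Ω) (g : D.A) (y y' : par D {c}) :
    aB D Z c hS A (aB D Z c hS A ω g y) g y' = aB D Z c hS A ω g (y * y') :=
  A.act_mul ω (Sum.inl (QuotientGroup.mk g) : Ln D Z c) y y'

lemma run_nil (x : A.Ω × D.A) : runX D Z c hS A [] x = x := rfl

lemma run_cons (a : Fin D.n × Bool) (u : W (Fin D.n)) (x : A.Ω × D.A) :
    runX D Z c hS A (a :: u) x = runX D Z c hS A u (stepX D Z c hS A x a) := rfl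

lemma run_append (u u' : W (Fin D.n)) (x : A.Ω × D.A) :
    runX D Z c hS A (u ++ u') x = runX D Z c hS A u' (runX D Z c hS A u x) := by
  simp [runX, List.foldl_append]

lemma step_out (ω : A.Ω) (g : D.A) (a : Fin D.n × Bool) (ha : D.β a.1 ≠ c) :
    stepX D Z c hS A (ω, g) a = (ω, g * lt D a) := by
  have h1 : rhoP D c (lt D a) = 1 := by
    apply Subtype.ext
    rw [rhoP_coe, rho_lt, if_neg (by simpa using ha)]
    rfl
  have h2 : rho D {c}ᶜ (lt D a) = lt D a := by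
    rw [rho_lt, if_pos (by simpa using ha)]
  have h3 : stepX D Z c hS A (ω, g) a =
      (aB D Z c hS A ω g (rhoP D c (lt D a)), g * rho D {c}ᶜ (lt D a)) := rfl
  rw [h3, h1, h2, aB_one]

lemma step_in (ω : A.Ω) (g : D.A) (a : Fin D.n × Bool) (ha : D.β a.1 = c) :
    stepX D Z c hS A (ω, g) a = (aB D Z c hS A ω g (rhoP D c (lt D a)), g) := by
  have h2 : rho D {c}ᶜ (lt D a) = 1 := by
    rw [rho_lt, if_neg (by simpa using ha)]
  have h3 : stepX D Z c hS A (ω, g) a =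
      (aB D Z c hS A ω g (rhoP D c (lt D a)), g * rho D {c}ᶜ (lt D a)) := rfl
  rw [h3, h2, mul_one]

lemma run_out (u : W (Fin D.n)) (hu : ∀ a ∈ u, D.β a.1 ≠ c) (ω : A.Ω) (g : D.A) :
    runX D Z c hS A u (ω, g) = (ω, g * gEl D u) := by
  induction u generalizing g with
  | nil => rw [run_nil, gEl_nil, mul_one]
  | cons a u ih =>
    rw [run_cons, step_out D Z c hS A ω g a (hu a (by simp)),
      ih (fun x hx => hu x (List.mem_cons_of_mem _ hx)), gEl_cons, mul_assoc]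

lemma run_in (u : W (Fin D.n)) (hu : ∀ a ∈ u, D.β a.1 = c) (ω : A.Ω) (g : D.A) :
    runX D Z c hS A u (ω, g) = (aB D Z c hS A ω g (rhoP D c (gEl D u)), g) := by
  induction u generalizing ω with
  | nil => rw [run_nil, gEl_nil, map_one, aB_one]
  | cons a u ih =>
    rw [run_cons, step_in D Z c hS A ω g a (hu a (by simp)),
      ih (fun x hx => hu x (List.mem_cons_of_mem _ hx)), gEl_cons, map_mul, aB_mul]

lemma mem_wp (w : Fin D.n) (i : ℤ) : ∀ a ∈ (wp w i : W (Fin D.n)), a.1 = w := by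
  intro a ha
  unfold wp at ha
  split_ifs at ha
  · rw [List.eq_of_mem_replicate ha]
  · rw [List.eq_of_mem_replicate ha]

/-- the element of the block line of a power of `w` -/
lemma run_wp (w : Fin D.n) (hw : D.β w = c) (i : ℤ) (ω : A.Ω) (g : D.A) :
    runX D Z c hS A (wp w i) (ω, g) = (aB D Z c hS A ω g (rhoP D c (gR D.m w) ^ i), g) := by
  rw [run_in D Z c hS A _ (fun a ha => by rw [mem_wp D w i a ha, hw]) ω g, gEl_wp, map_zpow]

/-- a word over `Z` for an element of `par Z` -/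
lemma exists_word (hc : c ∉ Z) (h : D.A) (hh : h ∈ par D Z) :
    ∃ u : W (Fin D.n), gEl D u = h ∧ ∀ a ∈ u, D.β a.1 ≠ c := by
  obtain ⟨u, hu⟩ := gEl_surj D h
  refine ⟨flt D Z u, ?_, ?_⟩
  · rw [← rho_gEl, hu]
    exact hh
  · intro a ha hac
    unfold flt at ha
    rw [List.mem_filter] at ha
    have := ha.2
    rw [decide_eq_true_eq] at this
    rw [hac] at this
    exact hc this

/-- the point of `g` -/
noncomputable def ptt (w : Fin D.n) (hw : D.β w = c) (g : D.A) : Pt D Z c := (QuotientGroup.mk g, ⟨w, hw⟩)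

lemma ptt_eq (w : Fin D.n) (hw : D.β w = c) (g g' : D.A) (hg : g⁻¹ * g' ∈ par D Z)
    (h : ptt D Z c w hw g = ptt D Z c w hw g') : g⁻¹ * g' ∈ par D (pZ D Z c) := by
  have h1 : (QuotientGroup.mk g : D.A ⧸ H0 D Z c) = QuotientGroup.mk g' := congrArg Prod.fst h
  rw [QuotientGroup.eq, mem_H0, rho_of_par D hg] at h1
  exact h1

end

theorem t_NS (hact : S_ACTX) : S_NS := by
  intro D Z c hc hS
  obtain ⟨A⟩ := Pool.Agent.H482R3.EB.Asm.nft (sysX D Z c hS)
  refine ⟨?_, ?_⟩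
  · intro w h i hw hh hi hrel
    obtain ⟨u, hu, hu2⟩ := exists_word D Z c hc h hh
    obtain ⟨u', hu', hu2'⟩ := exists_word D Z c hc h⁻¹ (Subgroup.inv_mem _ hh)
    have htriv : gEl D (wp w i ++ u ++ wp w (-i) ++ u') = 1 := by
      rw [gEl_append, gEl_append, gEl_append, gEl_wp, gEl_wp, hu, hu']
      exact hrel
    have h1 := hact D Z c hc hS A _ htriv (A.one, 1)
    rw [run_append, run_append, run_append, run_wp D Z c hS A w hw,
      run_out D Z c hS A u hu2, run_wp D Z c hS A w hw, run_out D Z c hS A u' hu2', hu, hu',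
      one_mul] at h1
    have h2 : aB D Z c hS A (aB D Z c hS A A.one 1 (rhoP D c (gR D.m w) ^ i)) h
        (rhoP D c (gR D.m w) ^ (-i)) = A.one := congrArg Prod.fst h1
    have h3 : aB D Z c hS A A.one 1 (rhoP D c (gR D.m w) ^ i) =
        aB D Z c hS A A.one h (rhoP D c (gR D.m w) ^ i) := by
      have h4 := congrArg (fun ω => aB D Z c hS A ω h (rhoP D c (gR D.m w) ^ i)) h2
      rw [aB_mul, ← zpow_add, neg_add_cancel, zpow_zero, aB_one] at h4
      exact h4
    have h6 : ptt D Z c w hw 1 = ptt D Z c w hw h :=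
      gen2 (sysX D Z c hS) A (Sum.inl (QuotientGroup.mk 1) : Ln D Z c)
        (Sum.inl (QuotientGroup.mk h) : Ln D Z c) (ptt D Z c w hw 1) (ptt D Z c w hw h) rfl rfl
        i i hi hi h3
    have h7 := ptt_eq D Z c w hw 1 h (by rw [inv_one, one_mul]; exact hh) h6
    rw [inv_one, one_mul] at h7
    exact h7
  · intro w h₁ h₂ h₃ i j d hw hh₁ hh₂ hh₃ hi hj hd hrel
    by_contra hcon
    push Not at hcon
    obtain ⟨hc1, hc2, hc3⟩ := hcon
    obtain ⟨u₁, hu₁, hv₁⟩ := exists_word D Z c hc h₁ hh₁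
    obtain ⟨u₂, hu₂, hv₂⟩ := exists_word D Z c hc h₂ hh₂
    obtain ⟨u₃, hu₃, hv₃⟩ := exists_word D Z c hc h₃ hh₃
    have htriv : gEl D (wp w i ++ u₁ ++ wp w j ++ u₂ ++ wp w d ++ u₃) = 1 := by
      rw [gEl_append, gEl_append, gEl_append, gEl_append, gEl_append, gEl_wp, gEl_wp, gEl_wp,
        hu₁, hu₂, hu₃]
      exact hrel
    have h1 := hact D Z c hc hS A _ htriv (A.one, 1)
    rw [run_append, run_append, run_append, run_append, run_append, run_wp D Z c hS A w hw,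
      run_out D Z c hS A u₁ hv₁, run_wp D Z c hS A w hw, run_out D Z c hS A u₂ hv₂,
      run_wp D Z c hS A w hw, run_out D Z c hS A u₃ hv₃, hu₁, hu₂, hu₃, one_mul] at h1
    have hprod : h₁ * h₂ * h₃ = 1 := congrArg Prod.snd h1
    have h2 : aB D Z c hS A (aB D Z c hS A (aB D Z c hS A A.one 1 (rhoP D c (gR D.m w) ^ i)) h₁
        (rhoP D c (gR D.m w) ^ j)) (h₁ * h₂) (rhoP D c (gR D.m w) ^ d) = A.one :=
      congrArg Prod.fst h1
    have h3 : aB D Z c hS A A.one 1 (rhoP D c (gR D.m w) ^ i) =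
        aB D Z c hS A (aB D Z c hS A A.one (h₁ * h₂) (rhoP D c (gR D.m w) ^ (-d))) h₁
          (rhoP D c (gR D.m w) ^ (-j)) := by
      conv_rhs => rw [← h2, aB_mul, ← zpow_add, add_neg_cancel, zpow_zero, aB_one, aB_mul,
        ← zpow_add, add_neg_cancel, zpow_zero, aB_one]
    have h12 : ptt D Z c w hw 1 ≠ ptt D Z c w hw h₁ := by
      intro h
      have h7 := ptt_eq D Z c w hw 1 h₁ (by rw [inv_one, one_mul]; exact hh₁) h
      rw [inv_one, one_mul] at h7
      exact hc1 h7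
    have h23 : ptt D Z c w hw h₁ ≠ ptt D Z c w hw (h₁ * h₂) := by
      intro h
      have e : h₁⁻¹ * (h₁ * h₂) = h₂ := by group
      have h7 := ptt_eq D Z c w hw h₁ (h₁ * h₂) (by rw [e]; exact hh₂) h
      rw [e] at h7
      exact hc2 h7
    exact gen3 (sysX D Z c hS) A (Sum.inl (QuotientGroup.mk 1) : Ln D Z c)
      (Sum.inl (QuotientGroup.mk h₁) : Ln D Z c) (Sum.inl (QuotientGroup.mk (h₁ * h₂)) : Ln D Z c)
      (ptt D Z c w hw 1) (ptt D Z c w hw h₁) (ptt D Z c w hw (h₁ * h₂)) rfl rfl rfl i (-j) (-d)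
      hi (neg_ne_zero.2 hj) (neg_ne_zero.2 hd) h12 h23 h3

end Pool.Agent.H800.BG.NS
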